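import Mathlib
import Pool.Agent.H42.HExt2

open Cardinal

/-- Under CH, `ℕ` has a hyperextension that is Hausdorff and countably compact. -/
theorem Pool.Agent.Results.MP_f4378e_lc.Cons.result (hCH : (𝔠 : Cardinal.{0}) = ℵ₁) :
    ∃ (Y : Type) (_ : TopologicalSpace Y) (ι : ℕ → Y) (star : (ℕ → ℕ) → Y → Y),
      Topology.IsEmbedding ι ∧ DenseRange ι ∧
      (∀ f, Continuous (star f)) ∧ (∀ f x, star f (ι x) = ι (f x)) ∧
      (∀ f g, star g ∘ star f = star (g ∘ f)) ∧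
      (∀ f (A : Set ℕ), (∀ x ∈ A, f x = x) → ∀ ξ ∈ closure (ι '' A), star f ξ = ξ) ∧
      (∀ f g : ℕ → ℕ, (∀ x, f x ≠ g x) ↔ ∀ ξ, star f ξ ≠ star g ξ) ∧
      (∃ p q, ∀ ξ η, ∃ ζ, star p ζ = ξ ∧ star q ζ = η) ∧
      T2Space Y ∧ CountablyCompactSpace Y := by
  obtain ⟨Y, τ, ι, star, h1, h2, -, h4, h5, h6, h7, h8, -, h9, h10⟩ :=
    Pool.Agent.H42.HExt.main hCH
  refine ⟨Y, τ, ι, star, h1, h2, h4, h5, fun f g => (h6 f g).symm, fun f A h ξ hξ => ?_,
    fun f g => ⟨fun h ξ he => ?_, fun h x he => h (ι x) (by rw [h5, h5, he])⟩, h8, h9, h10⟩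
  · refine closure_minimal ?_ (isClosed_eq (h4 f) continuous_id) hξ
    rintro _ ⟨x, hx, rfl⟩
    exact (h5 f x).trans (congrArg ι (h x hx))
  · have h0 := h7 f g ξ
    rw [if_pos he] at h0
    have hz : star (fun _ => 0) ξ = ι 0 := h2.induction_on (p := fun ξ => star (fun _ => 0) ξ = ι 0)
      ξ (isClosed_eq (h4 _) continuous_const) fun x => h5 _ x
    simp only [h, if_false] at h0
    exact zero_ne_one (h1.injective (hz.symm.trans h0))
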